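import Pool.Agent.Helper78.DT.Goals

/-!
# Project DT (MP_34c247_lc): packet HSHINJ (polynomial hashing has few collisions)
-/

namespace Pool.Agent.Helper59.DT

open scoped Classical
open Pool.Agent.Helper78.DT

theorem hs_eq_cast {P e z v v' : ℕ} (h : hs P e z v = hs P e z v') :
    ∑ i ∈ Finset.range e, (((v / 2 ^ i % 2 : ℕ) : ZMod P) - ((v' / 2 ^ i % 2 : ℕ) : ZMod P)) * (z : ZMod P) ^ i = 0 := by
  unfold hs pv at h
  have h1 := (ZMod.natCast_eq_natCast_iff' _ _ P).mpr h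
  push_cast at h1
  simp only [sub_mul, Finset.sum_sub_distrib]
  rw [h1, sub_self]

theorem digit_ne {e v v' : ℕ} (hv : v < 2 ^ e) (hv' : v' < 2 ^ e) (hne : v ≠ v') :
    ∃ i < e, v / 2 ^ i % 2 ≠ v' / 2 ^ i % 2 := by
  by_contra hcon
  push Not at hcon
  apply hne
  apply Nat.eq_of_testBit_eq
  intro i
  rw [Nat.testBit_eq_decide_div_mod_eq, Nat.testBit_eq_decide_div_mod_eq]
  by_cases hi : i < e
  · rw [hcon i hi]
  · have h1 : v < 2 ^ i := lt_of_lt_of_le hv (Nat.pow_le_pow_right (by norm_num) (not_lt.mp hi))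
    have h2 : v' < 2 ^ i := lt_of_lt_of_le hv' (Nat.pow_le_pow_right (by norm_num) (not_lt.mp hi))
    rw [Nat.div_eq_of_lt h1, Nat.div_eq_of_lt h2]

theorem cast_sub_ne {P a b : ℕ} [Fact P.Prime] (ha : a < 2) (hb : b < 2) (hab : a ≠ b) :
    ((a : ZMod P) - (b : ZMod P)) ≠ 0 := by
  interval_cases a <;> interval_cases b
  · exact absurd rfl hab
  · rw [Nat.cast_zero, Nat.cast_one, zero_sub]
    exact neg_ne_zero.mpr one_ne_zero
  · rw [Nat.cast_zero, Nat.cast_one, sub_zero]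
    exact one_ne_zero
  · exact absurd rfl hab

theorem hsh : HshStmt := by
  intro P e v v' hP hv hv' hne
  have : Fact P.Prime := ⟨hP⟩
  obtain ⟨D, hD⟩ : ∃ D : Polynomial (ZMod P), D = ∑ i ∈ Finset.range e,
    Polynomial.C (((v / 2 ^ i % 2 : ℕ) : ZMod P) - ((v' / 2 ^ i % 2 : ℕ) : ZMod P)) * Polynomial.X ^ i := ⟨_, rfl⟩
  have hco : ∀ i < e, D.coeff i = ((v / 2 ^ i % 2 : ℕ) : ZMod P) - ((v' / 2 ^ i % 2 : ℕ) : ZMod P) := by
    intro i hi
    rw [hD]
    simp only [Polynomial.finsetSum_coeff, Polynomial.coeff_C_mul, Polynomial.coeff_X_pow, mul_ite, mul_one,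
      mul_zero, Finset.sum_ite_eq, Finset.mem_range]
    rw [if_pos hi]
  have hD0 : D ≠ 0 := by
    obtain ⟨i, hi, hdig⟩ := digit_ne hv hv' hne
    intro h0
    have h1 := hco i hi
    rw [h0, Polynomial.coeff_zero] at h1
    exact cast_sub_ne (Nat.mod_lt _ (by norm_num)) (Nat.mod_lt _ (by norm_num)) hdig h1.symm
  have hdeg : D.natDegree ≤ e := by
    rw [hD]
    refine Polynomial.natDegree_sum_le_of_forall_le _ _ fun i hi => ?_
    exact (Polynomial.natDegree_C_mul_X_pow_le _ _).trans (Finset.mem_range.mp hi).le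
  have hroot : ∀ z : {z : Fin P // hs P e z v = hs P e z v'}, ((z.1 : ℕ) : ZMod P) ∈ D.roots.toFinset := by
    intro z
    rw [Multiset.mem_toFinset, Polynomial.mem_roots hD0, Polynomial.IsRoot.def, hD]
    simp only [Polynomial.eval_finsetSum, Polynomial.eval_mul, Polynomial.eval_C, Polynomial.eval_pow,
      Polynomial.eval_X]
    exact hs_eq_cast z.2
  have hinj : Function.Injective (fun z : {z : Fin P // hs P e z v = hs P e z v'} =>
      (⟨((z.1 : ℕ) : ZMod P), hroot z⟩ : {x // x ∈ D.roots.toFinset})) := by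
    intro z z' h
    have h1 : ((z.1 : ℕ) : ZMod P) = ((z'.1 : ℕ) : ZMod P) := congrArg Subtype.val h
    have h2 := (ZMod.natCast_eq_natCast_iff' _ _ P).mp h1
    rw [Nat.mod_eq_of_lt z.1.2, Nat.mod_eq_of_lt z'.1.2] at h2
    exact Subtype.ext (Fin.ext h2)
  calc Nat.card {z : Fin P // hs P e z v = hs P e z v'} ≤ Nat.card {x // x ∈ D.roots.toFinset} :=
        Nat.card_le_card_of_injective _ hinj
    _ = D.roots.toFinset.card := by rw [Nat.card_eq_fintype_card, Fintype.card_coe]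
    _ ≤ Multiset.card D.roots := Multiset.toFinset_card_le _
    _ ≤ D.natDegree := Polynomial.card_roots' D
    _ ≤ e := hdeg

theorem pr_eq_card {Ω : Type*} [Fintype Ω] (E : Ω → Prop) :
    pr E = (Nat.card {w // E w} : ℝ) / Fintype.card Ω := by
  unfold pr av
  congr 1
  rw [Finset.sum_boole, Nat.card_eq_fintype_card, Fintype.card_subtype]

theorem inj (h : HshStmt) : InjStmt := by
  intro P e σ hP S hS hfin hcard
  obtain ⟨T, hT⟩ : ∃ T : Finset ℕ, T = hfin.toFinset := ⟨_, rfl⟩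
  have hTc : T.card ≤ σ := by
    rw [hT, ← Set.ncard_eq_toFinset_card S hfin]; exact hcard
  have hP0 : (0 : ℝ) < P := by exact_mod_cast hP.pos
  calc pr (fun z : Fin P => ¬ Set.InjOn (fun v => hs P e z v) S)
      ≤ pr (fun z : Fin P => ∃ p ∈ (T ×ˢ T).filter (fun p => p.1 ≠ p.2), hs P e z p.1 = hs P e z p.2) := by
        refine pr_mono fun z hz => ?_
        unfold Set.InjOn at hz
        push Not at hz
        obtain ⟨a, ha, b, hb, hab, hne⟩ := hz
        refine ⟨(a, b), ?_, hab⟩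
        rw [Finset.mem_filter, Finset.mem_product, hT]
        exact ⟨⟨hfin.mem_toFinset.mpr ha, hfin.mem_toFinset.mpr hb⟩, hne⟩
    _ ≤ ∑ p ∈ (T ×ˢ T).filter (fun p => p.1 ≠ p.2), pr (fun z : Fin P => hs P e z p.1 = hs P e z p.2) :=
        pr_exists_le _ _
    _ ≤ ∑ p ∈ (T ×ˢ T).filter (fun p => p.1 ≠ p.2), (e : ℝ) / P := by
        refine Finset.sum_le_sum fun p hp => ?_
        rw [Finset.mem_filter, Finset.mem_product, hT] at hp
        rw [pr_eq_card, Fintype.card_fin]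
        have h1 := h P e p.1 p.2 hP (hS _ (hfin.mem_toFinset.mp hp.1.1)) (hS _ (hfin.mem_toFinset.mp hp.1.2)) hp.2
        exact div_le_div_of_nonneg_right (by exact_mod_cast h1) hP0.le
    _ = (((T ×ˢ T).filter (fun p => p.1 ≠ p.2)).card : ℝ) * ((e : ℝ) / P) := by
        rw [Finset.sum_const, nsmul_eq_mul]
    _ ≤ (σ : ℝ) ^ 2 * ((e : ℝ) / P) := by
        refine mul_le_mul_of_nonneg_right ?_ (div_nonneg (Nat.cast_nonneg _) hP0.le)
        have h1 : ((T ×ˢ T).filter (fun p => p.1 ≠ p.2)).card ≤ σ ^ 2 := by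
          calc ((T ×ˢ T).filter (fun p => p.1 ≠ p.2)).card ≤ (T ×ˢ T).card := Finset.card_filter_le _ _
            _ = T.card * T.card := Finset.card_product _ _
            _ ≤ σ * σ := Nat.mul_le_mul hTc hTc
            _ = σ ^ 2 := by ring
        exact_mod_cast h1
    _ = (σ : ℝ) ^ 2 * e / P := by ring

end Pool.Agent.Helper59.DT
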